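import Pool.Agent.MP_c69980_ag.H71.SpecA

/-!
Infinitely many pointed maps of bounded degree to an affine variety give an affine line through
the point (rescaling of power series expansions along an unbounded sequence).
-/

set_option autoImplicit false

namespace Pool.Agent.MP_c69980_ag.H86

open MvPolynomial Filter Topology Pool.Agent.MP_c69980_ag.H71

/-- An infinite algebraic subset of affine space is unbounded. -/
lemma unbounded {σ : Type} [Fintype σ] (S : Set (σ → ℂ)) (hS : S.Infinite)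
    (hcl : ∀ w : σ → ℂ,
      (∀ P : MvPolynomial σ ℂ, (∀ s ∈ S, eval s P = 0) → eval w P = 0) → w ∈ S)
    (R : ℝ) : ∃ s ∈ S, R < ‖s‖ := by
  by_contra hb
  push Not at hb
  set I : Ideal (MvPolynomial σ ℂ) := vanishingIdeal ℂ S with hI
  have hI1 : I ≠ ⊤ := by
    obtain ⟨w, hw⟩ := hS.nonempty
    intro h
    have h1 : (1 : MvPolynomial σ ℂ) ∈ I := h ▸ Submodule.mem_top
    have := (mem_vanishingIdeal_iff.1 h1) w hw
    simp at this
  have : Nontrivial (MvPolynomial σ ℂ ⧸ I) := Ideal.Quotient.nontrivial_iff.mpr hI1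
  obtain ⟨s, g, hg, hint⟩ := exists_integral_inj_algHom_of_fg ℂ (MvPolynomial σ ℂ ⧸ I)
  rcases s with _ | s
  · have key : ∀ i, ∃ q : Polynomial ℂ, q ≠ 0 ∧ ∀ w ∈ S, q.eval (w i) = 0 := by
      intro i
      obtain ⟨p, hp, hp0⟩ := hint (Ideal.Quotient.mk I (X i))
      refine ⟨p.map (aeval (Fin.elim0 : Fin 0 → ℂ) :
        MvPolynomial (Fin 0) ℂ →ₐ[ℂ] ℂ).toRingHom, (hp.map _).ne_zero, fun w hw => ?_⟩
      let ev : (MvPolynomial σ ℂ ⧸ I) →ₐ[ℂ] ℂ :=
        Ideal.Quotient.liftₐ I (aeval w) fun a ha => (mem_vanishingIdeal_iff.1 ha) w hw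
      have h1 : ev.comp g = aeval (Fin.elim0 : Fin 0 → ℂ) :=
        MvPolynomial.algHom_ext fun j => j.elim0
      have h2 := Polynomial.hom_eval₂ p g.toRingHom ev.toRingHom (Ideal.Quotient.mk I (X i))
      rw [hp0, map_zero] at h2
      have h3 : ev.toRingHom (Ideal.Quotient.mk I (X i)) = w i := by
        simp [ev]
      rw [Polynomial.eval_map, ← h1, ← h3]
      exact h2.symm
    choose q hq0 hq using key
    refine hS (Set.Finite.subset (Set.Finite.pi' fun i => (q i).rootSet_finite ℂ) fun w hw i => ?_)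
    rw [Polynomial.mem_rootSet]
    exact ⟨hq0 i, by simpa using hq i w hw⟩
  · obtain ⟨F, hF⟩ := Ideal.Quotient.mk_surjective (g (X 0))
    obtain ⟨M, hM⟩ := (isCompact_closedBall (0 : σ → ℂ) R).exists_bound_of_continuousOn
      (MvPolynomial.continuous_eval F).continuousOn
    let lam : ℂ := ((|M| + 1 : ℝ) : ℂ)
    let e : MvPolynomial (Fin (s + 1)) ℂ →ₐ[ℂ] ℂ := aeval fun _ => lam
    have he : Function.Surjective e := fun c => ⟨C c, by simp [e]⟩
    have hP : (RingHom.ker e).IsMaximal := RingHom.ker_isMaximal_of_surjective e he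
    let : Algebra (MvPolynomial (Fin (s + 1)) ℂ) (MvPolynomial σ ℂ ⧸ I) := g.toRingHom.toAlgebra
    have : Algebra.IsIntegral (MvPolynomial (Fin (s + 1)) ℂ) (MvPolynomial σ ℂ ⧸ I) := ⟨hint⟩
    obtain ⟨Q, hQ, hQP⟩ := Ideal.exists_ideal_over_maximal_of_isIntegral
      (S := MvPolynomial σ ℂ ⧸ I) (RingHom.ker e) (by
        have : RingHom.ker (algebraMap (MvPolynomial (Fin (s + 1)) ℂ) (MvPolynomial σ ℂ ⧸ I)) = ⊥ :=
          (RingHom.injective_iff_ker_eq_bot _).1 hg
        rw [this]; exact bot_le)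
    have hQ' : (Q.comap (Ideal.Quotient.mk I)).IsMaximal :=
      Ideal.comap_isMaximal_of_surjective _ Ideal.Quotient.mk_surjective
    obtain ⟨w, hw⟩ := isMaximal_iff_eq_vanishingIdeal_singleton.1 hQ'
    have hev : ∀ P : MvPolynomial σ ℂ, Ideal.Quotient.mk I P ∈ Q → eval w P = 0 := by
      intro P hP
      have : P ∈ vanishingIdeal ℂ ({w} : Set (σ → ℂ)) := hw ▸ hP
      simpa using (mem_vanishingIdeal_iff.1 this) w rfl
    have hwS : w ∈ S := hcl w fun P hP => hev P (by
      have : Ideal.Quotient.mk I P = 0 :=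
        Ideal.Quotient.eq_zero_iff_mem.2 (mem_vanishingIdeal_iff.2 fun x hx => by
          simpa using hP x hx)
      rw [this]; exact Q.zero_mem)
    have h1 : X 0 - C lam ∈ RingHom.ker e := by simp [e, RingHom.mem_ker]
    rw [← hQP, Ideal.mem_comap] at h1
    have h2 : eval w (F - C lam) = 0 := by
      refine hev _ ?_
      have : Ideal.Quotient.mk I (F - C lam) = g (X 0 - C lam) := by
        rw [map_sub, map_sub, hF]
        congr 1
        exact ((g.commutes lam).trans rfl).symm
      rw [this]; exact h1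
    have h3 : eval w F = lam := by simpa [sub_eq_zero] using h2
    have h4 := hM w (by simpa using hb w hwS)
    rw [h3] at h4
    have h5 : ‖lam‖ = |M| + 1 := by
      simp only [lam, Complex.norm_real, Real.norm_eq_abs]
      exact abs_of_nonneg (by positivity)
    have := le_abs_self M
    linarith

/-- Power series expansion at a point whose ideal is principal. -/
lemma expansion (O : Type) [CommRing O] [IsDomain O] [IsNoetherianRing O] [Algebra ℂ O]
    (χ : O →ₐ[ℂ] ℂ) (π : O) (hπ : π ≠ 0) (hk : ∀ b, χ b = 0 ↔ π ∣ b) :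
    ∃ E : O →ₐ[ℂ] PowerSeries ℂ, Function.Injective E ∧
      ∀ b, PowerSeries.constantCoeff (E b) = χ b := by
  have hex : ∀ b : O, ∃ c, b - algebraMap ℂ O (χ b) = π * c := fun b =>
    (hk _).1 (by simp)
  choose D hD using hex
  have hadd : ∀ a b, D (a + b) = D a + D b := fun a b =>
    mul_left_cancel₀ hπ (by rw [mul_add, ← hD, ← hD, ← hD, map_add, map_add]; ring)
  have hsmul : ∀ (c : ℂ) a, D (algebraMap ℂ O c * a) = algebraMap ℂ O c * D a := fun c a =>
    mul_left_cancel₀ hπ (by
      rw [← hD, mul_left_comm, ← hD, map_mul, AlgHom.commutes, map_mul]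
      simp only [Algebra.algebraMap_self, RingHom.id_apply]; ring)
  have hmul : ∀ a b, D (a * b) = D a * b + algebraMap ℂ O (χ a) * D b := fun a b =>
    mul_left_cancel₀ hπ (by
      rw [← hD, mul_add, ← mul_assoc, ← hD, mul_left_comm, ← hD, map_mul, map_mul]; ring)
  have hconst : ∀ c : ℂ, D (algebraMap ℂ O c) = 0 := fun c =>
    mul_left_cancel₀ hπ (by rw [← hD]; simp)
  let E : O → PowerSeries ℂ := fun b => PowerSeries.mk fun j => χ (D^[j] b)
  have h0 : ∀ b, PowerSeries.coeff 0 (E b) = χ b := fun b => by simp [E]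
  have hs : ∀ b j, PowerSeries.coeff (j + 1) (E b) = PowerSeries.coeff j (E (D b)) := fun b j => by
    simp only [E, PowerSeries.coeff_mk, Function.iterate_succ_apply]
  have hrec : ∀ b, E b = PowerSeries.C (χ b) + PowerSeries.X * E (D b) := fun b => by
    ext j
    rcases j with _ | j
    · simp [h0]
    · rw [hs, map_add, PowerSeries.coeff_succ_X_mul, PowerSeries.coeff_C]; simp
  have Eadd : ∀ a b, E (a + b) = E a + E b := by
    have : ∀ j a b, PowerSeries.coeff j (E (a + b)) = PowerSeries.coeff j (E a + E b) := by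
      intro j
      induction j with
      | zero => intro a b; rw [map_add, h0, h0, h0, map_add]
      | succ j ih => intro a b; rw [hs, hadd, ih, map_add, map_add, hs, hs]
    intro a b; ext j; exact this j a b
  have Esmul : ∀ (c : ℂ) a, E (algebraMap ℂ O c * a) = PowerSeries.C c * E a := by
    have : ∀ j (c : ℂ) a, PowerSeries.coeff j (E (algebraMap ℂ O c * a)) =
        PowerSeries.coeff j (PowerSeries.C c * E a) := by
      intro j
      induction j with
      | zero => intro c a; rw [PowerSeries.coeff_C_mul, h0, h0, map_mul, AlgHom.commutes]; rfl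
      | succ j ih =>
        intro c a; rw [hs, hsmul, ih, PowerSeries.coeff_C_mul, PowerSeries.coeff_C_mul, hs]
    intro c a; ext j; exact this j c a
  have E0 : E 0 = 0 := by
    have := Esmul 0 0
    simpa using this
  have Econst : ∀ c : ℂ, E (algebraMap ℂ O c) = PowerSeries.C c := fun c => by
    rw [hrec, hconst, E0, AlgHom.commutes]; simp
  have Emul : ∀ a b, E (a * b) = E a * E b := by
    have : ∀ j a b, PowerSeries.coeff j (E (a * b)) = PowerSeries.coeff j (E a * E b) := by
      intro j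
      induction j with
      | zero =>
        intro a b
        rw [PowerSeries.coeff_zero_eq_constantCoeff, map_mul,
          ← PowerSeries.coeff_zero_eq_constantCoeff, h0, h0, h0, map_mul]
      | succ j ih =>
        intro a b
        have e1 : E a * E b = PowerSeries.C (χ a * χ b) +
            PowerSeries.X * (E (D a) * E b + PowerSeries.C (χ a) * E (D b)) := by
          conv_lhs => rw [hrec a, add_mul]
          conv_lhs => enter [1, 2]; rw [hrec b]
          rw [map_mul]; ring
        rw [hs, hmul, Eadd, Esmul, e1, map_add, map_add, PowerSeries.coeff_succ_X_mul, map_add, ih,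
          PowerSeries.coeff_C]
        simp
    intro a b; ext j; exact this j a b
  let Eh : O →ₐ[ℂ] PowerSeries ℂ :=
    { toFun := E
      map_one' := by simpa using Econst 1
      map_mul' := Emul
      map_zero' := E0
      map_add' := Eadd
      commutes' := fun c => by rw [Econst]; rfl }
  refine ⟨Eh, (injective_iff_map_eq_zero Eh).2 fun b hb => ?_, fun b => ?_⟩
  · have hb' : ∀ j, χ (D^[j] b) = 0 := fun j => by
      have := congrArg (PowerSeries.coeff j) (show E b = 0 from hb)
      simpa [E] using this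
    have hpow : ∀ j, b = π ^ j * D^[j] b := by
      intro j
      induction j with
      | zero => simp
      | succ j ih =>
        have := hD (D^[j] b)
        rw [hb', map_zero, sub_zero] at this
        rw [Function.iterate_succ_apply', pow_succ, mul_assoc, ← this]
        exact ih
    have hne : Ideal.span {π} ≠ ⊤ := by
      intro h
      have hu := Ideal.span_singleton_eq_top.1 h
      have : χ 1 = 0 := (hk 1).2 hu.dvd
      simp at this
    have hbot := Ideal.iInf_pow_eq_bot_of_isDomain (Ideal.span {π}) hne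
    have : b ∈ ⨅ i : ℕ, (Ideal.span {π}) ^ i := by
      refine Submodule.mem_iInf _ |>.2 fun j => ?_
      rw [Ideal.span_singleton_pow, Ideal.mem_span_singleton]
      exact ⟨_, hpow j⟩
    rw [hbot] at this
    exact this
  · rw [← PowerSeries.coeff_zero_eq_constantCoeff_apply]; exact h0 b

/-- Power series expansion at a point of a smooth affine curve. -/
lemma expansion_AC (B : Type) [CommRing B] [Algebra ℂ B] (t : B) (h : AC B t)
    (χ₀ : B →ₐ[ℂ] ℂ) : ∃ E : B →ₐ[ℂ] PowerSeries ℂ, Function.Injective E ∧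
      ∀ b, PowerSeries.constantCoeff (E b) = χ₀ b := by
  have := h.dom
  have := h.nor
  let : Algebra (Polynomial ℂ) B :=
    (Polynomial.aeval t : Polynomial ℂ →ₐ[ℂ] B).toRingHom.toAlgebra
  have : Module.Finite (Polynomial ℂ) B := h.fin
  have : IsNoetherianRing B := IsNoetherianRing.of_finite (Polynomial ℂ) B
  have : Ring.DimensionLEOne B := Ring.DimensionLEOne.of_isIntegral (Polynomial ℂ) B
  have : IsDedekindDomain B :=
    (isDedekindDomain_iff B (FractionRing B)).2
      ⟨inferInstance, inferInstance, inferInstance, fun hx => IsIntegrallyClosed.isIntegral_iff.1 hx⟩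
  let m : Ideal B := RingHom.ker χ₀
  have hm : m.IsPrime := RingHom.ker_isPrime χ₀
  have hm0 : m ≠ ⊥ := by
    intro h0
    have h1 : t - algebraMap ℂ B (χ₀ t) ∈ m := by simp [m, RingHom.mem_ker]
    rw [h0, Ideal.mem_bot, sub_eq_zero] at h1
    exact h.tr (h1 ▸ isAlgebraic_algebraMap _)
  let O := Localization.AtPrime m
  have : IsDiscreteValuationRing O :=
    IsLocalization.AtPrime.isDiscreteValuationRing_of_dedekind_domain B hm0 O
  let χ : O →ₐ[ℂ] ℂ := IsLocalization.liftAlgHom (M := m.primeCompl) (f := χ₀) fun y =>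
    isUnit_iff_ne_zero.2 y.2
  have hχ : ∀ b : B, χ (algebraMap B O b) = χ₀ b := fun b => by simp [χ]
  obtain ⟨π, hπ⟩ := IsDiscreteValuationRing.exists_irreducible O
  have hmax : (RingHom.ker χ).IsMaximal :=
    RingHom.ker_isMaximal_of_surjective χ fun c => ⟨algebraMap ℂ O c, by simp⟩
  have hker : RingHom.ker χ = Ideal.span {π} :=
    (IsLocalRing.eq_maximalIdeal hmax).trans hπ.maximalIdeal_eq
  obtain ⟨E, hE, hE0⟩ := expansion O χ π hπ.ne_zero fun b => by
    rw [← Ideal.mem_span_singleton, ← hker, RingHom.mem_ker]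
  refine ⟨E.comp (IsScalarTower.toAlgHom ℂ B O), hE.comp
    (IsLocalization.injective O m.primeCompl_le_nonZeroDivisors), fun b => ?_⟩
  simp only [AlgHom.comp_apply, IsScalarTower.toAlgHom_apply, hE0, hχ]

/-- Coefficients of a polynomial expression in power series depend continuously on the
coefficients. -/
lemma tendsto_coeff_aeval {n : ℕ} (F : ℕ → Fin n → PowerSeries ℂ) (f : Fin n → PowerSeries ℂ)
    (h : ∀ i j, Tendsto (fun k => PowerSeries.coeff j (F k i)) atTop
      (𝓝 (PowerSeries.coeff j (f i)))) (G : MvPolynomial (Fin n) ℂ) :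
    ∀ N, Tendsto (fun k => PowerSeries.coeff N (aeval (F k) G)) atTop
      (𝓝 (PowerSeries.coeff N (aeval f G))) := by
  induction G using MvPolynomial.induction_on with
  | C a => intro N; simp only [aeval_C]; exact tendsto_const_nhds
  | add p q hp hq => intro N; simp only [map_add]; exact (hp N).add (hq N)
  | mul_X p i hp =>
    intro N
    simp only [map_mul, aeval_X, PowerSeries.coeff_mul]
    exact tendsto_finsetSum _ fun a _ => (hp a.1).mul (h i a.2)

/-- Coefficients of a polynomial expression in power series are polynomial in the parameters. -/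
lemma poly_coeff_aeval {σ : Type} {n : ℕ} (F : (σ → ℂ) → Fin n → PowerSeries ℂ)
    (h : ∀ i j, ∃ P : MvPolynomial σ ℂ, ∀ w, PowerSeries.coeff j (F w i) = eval w P)
    (G : MvPolynomial (Fin n) ℂ) :
    ∀ N, ∃ P : MvPolynomial σ ℂ, ∀ w, PowerSeries.coeff N (aeval (F w) G) = eval w P := by
  induction G using MvPolynomial.induction_on with
  | C a =>
    intro N
    exact ⟨C (PowerSeries.coeff N (algebraMap ℂ (PowerSeries ℂ) a)), fun w => by
      rw [aeval_C, eval_C]⟩
  | add p q hp hq =>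
    intro N
    obtain ⟨P, hP⟩ := hp N
    obtain ⟨Q, hQ⟩ := hq N
    exact ⟨P + Q, fun w => by simp only [map_add, hP, hQ]⟩
  | mul_X p i hp =>
    intro N
    choose P hP using hp
    choose Q hQ using h i
    exact ⟨∑ a ∈ Finset.HasAntidiagonal.antidiagonal N, P a.1 * Q a.2, fun w => by
      simp only [map_mul, aeval_X, PowerSeries.coeff_mul, map_sum, hP, hQ]⟩

/-- A finite-dimensional space of power series is detected by finitely many coefficients. -/
lemma exists_jet (W : Submodule ℂ (PowerSeries ℂ)) [Module.Finite ℂ W] :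
    ∃ (J : ℕ) (ρ : (Fin (J + 1) → ℂ) →ₗ[ℂ] PowerSeries ℂ),
      ∀ v ∈ W, ρ (fun j => PowerSeries.coeff j v) = v := by
  let τ : ∀ J : ℕ, W →ₗ[ℂ] (Fin (J + 1) → ℂ) := fun J =>
    LinearMap.pi fun j => (PowerSeries.coeff (j : ℕ)).comp W.subtype
  have hτ : ∀ J (v : W), v ∈ LinearMap.ker (τ J) ↔
      ∀ j ≤ J, PowerSeries.coeff j (v : PowerSeries ℂ) = 0 := fun J v => by
    rw [LinearMap.mem_ker, funext_iff]
    exact ⟨fun h j hj => h ⟨j, Nat.lt_succ_of_le hj⟩, fun h j => h j (Nat.le_of_lt_succ j.2)⟩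
  let K : ℕ →o (Submodule ℂ W)ᵒᵈ :=
    ⟨fun J => OrderDual.toDual (LinearMap.ker (τ J)), fun a b hab v hv =>
      (hτ a v).2 fun j hj => (hτ b v).1 hv j (hj.trans hab)⟩
  obtain ⟨J, hJ⟩ := IsArtinian.monotone_stabilizes K
  have hker : LinearMap.ker (τ J) = ⊥ := by
    refine (Submodule.eq_bot_iff _).2 fun v hv => Subtype.ext ?_
    ext j
    have h1 : LinearMap.ker (τ J) = LinearMap.ker (τ (max J j)) := hJ _ (le_max_left _ _)
    simpa using (hτ _ v).1 (h1 ▸ hv) j (le_max_right _ _)
  obtain ⟨r, hr⟩ := (τ J).exists_leftInverse_of_injective hker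
  refine ⟨J, W.subtype.comp r, fun v hv => ?_⟩
  have := congrArg Subtype.val (LinearMap.congr_fun hr ⟨v, hv⟩)
  exact this

/-- The scaling factor of a large jet. -/
lemma exists_scale {n J : ℕ} (w : Fin n × Fin (J + 1) → ℂ) (x : Fin n → ℂ)
    (hx : ∀ i, w (i, 0) = x i) (h1 : 1 < ‖w‖) (h2 : ‖x‖ < ‖w‖) :
    ∃ lam : ℝ, 1 ≤ lam ∧ ‖w‖ ≤ lam ^ J ∧ (∀ i j, j ≠ 0 → ‖w (i, j)‖ ≤ lam ^ (j : ℕ)) ∧
      ∃ i j, j ≠ 0 ∧ ‖w (i, j)‖ = lam ^ (j : ℕ) := by
  obtain ⟨b, hb⟩ : ∃ b, ‖w‖ ≤ ‖w b‖ := by
    by_contra hc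
    push Not at hc
    exact lt_irrefl _ ((pi_norm_lt_iff (by linarith)).2 hc)
  have hb0 : b.2 ≠ 0 := by
    intro h0
    have : w b = x b.1 := by rw [← hx, ← h0]
    have h3 := norm_le_pi_norm x b.1
    rw [this] at hb
    linarith
  obtain ⟨a, ha, hmax⟩ := Finset.exists_max_image
    (Finset.univ.filter fun c : Fin n × Fin (J + 1) => c.2 ≠ 0)
    (fun c => ‖w c‖ ^ (((c.2 : ℕ) : ℝ)⁻¹)) ⟨b, by simp [hb0]⟩
  have hpow : ∀ c : Fin n × Fin (J + 1), c.2 ≠ 0 →
      (‖w c‖ ^ (((c.2 : ℕ) : ℝ)⁻¹)) ^ (c.2 : ℕ) = ‖w c‖ := fun c hc =>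
    Real.rpow_inv_natCast_pow (norm_nonneg _) fun h => hc (Fin.ext h)
  set lam := ‖w a‖ ^ (((a.2 : ℕ) : ℝ)⁻¹) with hlam
  have hl0 : 0 ≤ lam := Real.rpow_nonneg (norm_nonneg _) _
  have hle : ∀ c : Fin n × Fin (J + 1), c.2 ≠ 0 → ‖w c‖ ≤ lam ^ (c.2 : ℕ) := fun c hc => by
    rw [← hpow c hc]
    exact pow_le_pow_left₀ (Real.rpow_nonneg (norm_nonneg _) _) (hmax c (by simp [hc])) _
  have hl1 : 1 ≤ lam := by
    by_contra hc
    push Not at hc
    have := pow_le_one₀ (n := (b.2 : ℕ)) hl0 hc.le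
    have := hle b hb0
    linarith
  refine ⟨lam, hl1, hb.trans ((hle b hb0).trans
    (pow_le_pow_right₀ hl1 (Nat.le_of_lt_succ b.2.2))), fun i j hj => hle (i, j) hj,
    a.1, a.2, by simpa using ha, (hpow a (by simpa using ha)).symm⟩

/-- The statement for power series. -/
lemma core (W : Submodule ℂ (PowerSeries ℂ)) [Module.Finite ℂ W] (n : ℕ)
    (T : Set (MvPolynomial (Fin n) ℂ)) (x : Fin n → ℂ)
    (hS : {f : Fin n → PowerSeries ℂ | (∀ i, f i ∈ W) ∧ (∀ G ∈ T, aeval f G = 0) ∧
      ∀ i, PowerSeries.constantCoeff (f i) = x i}.Infinite) :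
    ∃ p : Fin n → Polynomial ℂ, (∀ G ∈ T, aeval p G = 0) ∧ (∀ i, (p i).eval 0 = x i) ∧
      ∃ i, 0 < (p i).natDegree := by
  obtain ⟨J, ρ, hρ⟩ := exists_jet W
  let F : (Fin n × Fin (J + 1) → ℂ) → Fin n → PowerSeries ℂ := fun w i => ρ fun j => w (i, j)
  let S : Set (Fin n × Fin (J + 1) → ℂ) := {w | (∀ G ∈ T, aeval (F w) G = 0) ∧
    (∀ i, w (i, 0) = x i) ∧ ∀ i (j : Fin (J + 1)), PowerSeries.coeff j (F w i) = w (i, j)}
  have hSinf : S.Infinite := by
    refine Set.infinite_of_injOn_mapsTo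
      (f := fun (f : Fin n → PowerSeries ℂ) (c : Fin n × Fin (J + 1)) =>
        PowerSeries.coeff c.2 (f c.1)) ?_ ?_ hS
    · intro f hf g hg hfg
      funext i
      rw [← hρ _ (hf.1 i), ← hρ _ (hg.1 i)]
      congr 1
      funext j
      exact congrFun hfg (i, j)
    · intro f hf
      have hF : F (fun c => PowerSeries.coeff c.2 (f c.1)) = f := funext fun i => hρ _ (hf.1 i)
      refine ⟨fun G hG => ?_, fun i => ?_, fun i j => ?_⟩
      · rw [hF]; exact hf.2.1 G hG
      · rw [← hf.2.2 i]; exact PowerSeries.coeff_zero_eq_constantCoeff_apply _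
      · rw [hF]
  have hpoly : ∀ i j, ∃ P : MvPolynomial (Fin n × Fin (J + 1)) ℂ,
      ∀ w, PowerSeries.coeff j (F w i) = eval w P := fun i j =>
    ⟨∑ l : Fin (J + 1), X (i, l) * C (PowerSeries.coeff j (ρ fun l' => if l = l' then 1 else 0)),
      fun w => by
        simp only [F, map_sum, map_mul, eval_X, eval_C]
        rw [LinearMap.pi_apply_eq_sum_univ, map_sum]
        simp⟩
  have hcl : ∀ w : Fin n × Fin (J + 1) → ℂ, (∀ P : MvPolynomial (Fin n × Fin (J + 1)) ℂ,
      (∀ s ∈ S, eval s P = 0) → eval w P = 0) → w ∈ S := by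
    intro w hw
    refine ⟨fun G hG => ?_, fun i => ?_, fun i j => ?_⟩
    · ext N
      obtain ⟨P, hP⟩ := poly_coeff_aeval F hpoly G N
      rw [hP, map_zero]
      exact hw P fun s hs => by rw [← hP, hs.1 G hG, map_zero]
    · have := hw (X (i, 0) - C (x i)) fun s hs => by simp [hs.2.1 i]
      simpa [sub_eq_zero] using this
    · obtain ⟨P, hP⟩ := hpoly i j
      have := hw (P - X (i, j)) fun s hs => by rw [map_sub, ← hP, eval_X, hs.2.2, sub_self]
      rw [map_sub, ← hP, eval_X, sub_eq_zero] at this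
      exact this
  choose w hwS hw using fun k : ℕ => unbounded S hSinf hcl (k + 1 + ‖x‖)
  have hk : ∀ k : ℕ, (0 : ℝ) ≤ k := fun k => Nat.cast_nonneg k
  choose lam hl1 hlJ hlle hleq using fun k : ℕ => exists_scale (w k) x (hwS k).2.1
    (by have := hw k; have := hk k; have := norm_nonneg x; linarith)
    (by have := hw k; have := hk k; linarith)
  have hl0 : ∀ k, 0 < lam k := fun k => lt_of_lt_of_le one_pos (hl1 k)
  have hlam : Tendsto lam atTop atTop := by
    refine tendsto_atTop.2 fun b => ?_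
    filter_upwards [tendsto_atTop.1 tendsto_natCast_atTop_atTop (|b| ^ J)] with k hkb
    by_contra hc
    push Not at hc
    have h1 := pow_le_pow_left₀ (hl0 k).le (hc.le.trans (le_abs_self b)) J
    have := hw k
    have := hlJ k
    have := norm_nonneg x
    linarith
  let z : ℕ → Fin n × Fin (J + 1) → ℂ := fun k c => ((lam k : ℂ)⁻¹) ^ (c.2 : ℕ) * w k c
  have hzn : ∀ k c, ‖z k c‖ = ‖w k c‖ / lam k ^ (c.2 : ℕ) := fun k c => by
    simp only [z, norm_mul, norm_pow, norm_inv, Complex.norm_real, Real.norm_eq_abs,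
      abs_of_pos (hl0 k), inv_pow]
    rw [div_eq_inv_mul]
  let Cp : Set (Fin n × Fin (J + 1) → ℂ) := Metric.closedBall 0 (1 + ‖x‖) ∩
    ⋃ c ∈ {c : Fin n × Fin (J + 1) | c.2 ≠ 0}, {y | ‖y c‖ = 1}
  have hCp : IsCompact Cp := (isCompact_closedBall _ _).inter_right
    ((Set.toFinite _).isClosed_biUnion fun c _ =>
      isClosed_eq (continuous_apply c).norm continuous_const)
  have hz : ∀ k, z k ∈ Cp := by
    intro k
    refine ⟨?_, ?_⟩
    · rw [mem_closedBall_zero_iff]
      refine (pi_norm_le_iff_of_nonneg (by positivity)).2 fun c => ?_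
      rw [hzn]
      by_cases hc : c.2 = 0
      · have h1 : w k c = x c.1 := by rw [← (hwS k).2.1, ← hc]
        have := norm_le_pi_norm x c.1
        rw [h1, hc]
        simp only [Fin.val_zero, pow_zero, div_one]
        linarith
      · have h1 : ‖w k c‖ / lam k ^ (c.2 : ℕ) ≤ 1 :=
          (div_le_one (pow_pos (hl0 k) _)).2 (hlle k c.1 c.2 hc)
        have := norm_nonneg x
        linarith
    · obtain ⟨i, j, hj, he⟩ := hleq k
      refine Set.mem_biUnion (x := (i, j)) hj ?_
      show ‖z k (i, j)‖ = 1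
      rw [hzn, he]
      exact div_self (pow_pos (hl0 k) _).ne'
  obtain ⟨y, hy, φ, hφ, hlim⟩ := hCp.tendsto_subseq hz
  let p : Fin n → Polynomial ℂ := fun i => ∑ j : Fin (J + 1), Polynomial.monomial j (y (i, j))
  have hp1 : ∀ i (j : Fin (J + 1)), (p i).coeff j = y (i, j) := fun i j => by
    simp only [p, Polynomial.finsetSum_coeff, Polynomial.coeff_monomial]
    rw [Finset.sum_eq_single j]
    · simp
    · intro b _ hb
      rw [if_neg fun h => hb (Fin.ext h)]
    · simp
  have hp2 : ∀ i j, J < j → (p i).coeff j = 0 := fun i j hj => by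
    simp only [p, Polynomial.finsetSum_coeff, Polynomial.coeff_monomial]
    refine Finset.sum_eq_zero fun b _ => if_neg ?_
    have := b.2
    omega
  let H : ℕ → Fin n → PowerSeries ℂ := fun k i =>
    PowerSeries.rescaleAlgHom ((lam (φ k) : ℂ)⁻¹) (F (w (φ k)) i)
  have hH : ∀ k i j, PowerSeries.coeff j (H k i) =
      ((lam (φ k) : ℂ)⁻¹) ^ j * PowerSeries.coeff j (F (w (φ k)) i) := fun k i j => by
    have := DFunLike.congr_fun (PowerSeries.coe_rescaleAlgHom ((lam (φ k) : ℂ)⁻¹)) (F (w (φ k)) i)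
    rw [← PowerSeries.coeff_rescale, ← this]
    rfl
  have hconv : ∀ i j, Tendsto (fun k => PowerSeries.coeff j (H k i)) atTop
      (𝓝 (PowerSeries.coeff j ((p i : PowerSeries ℂ)))) := by
    intro i j
    rw [Polynomial.coeff_coe]
    by_cases hj : j ≤ J
    · have h1 := hp1 i ⟨j, Nat.lt_succ_of_le hj⟩
      have h2 := tendsto_pi_nhds.1 hlim (i, ⟨j, Nat.lt_succ_of_le hj⟩)
      simp only at h1
      rw [h1]
      refine h2.congr fun k => ?_
      rw [hH]
      have := (hwS (φ k)).2.2 i ⟨j, Nat.lt_succ_of_le hj⟩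
      simp only at this
      rw [this]
      rfl
    · push Not at hj
      rw [hp2 i j hj]
      let ℓ := LinearMap.toContinuousLinearMap ((PowerSeries.coeff j).comp ρ)
      have hb : ∀ k, ‖PowerSeries.coeff j (H k i)‖ ≤ ‖ℓ‖ * (lam (φ k))⁻¹ := by
        intro k
        have h0 := hl0 (φ k)
        have h1 : ‖PowerSeries.coeff j (F (w (φ k)) i)‖ ≤ ‖ℓ‖ * lam (φ k) ^ J := by
          refine (ℓ.le_opNorm fun l => w (φ k) (i, l)).trans
            (mul_le_mul_of_nonneg_left (le_trans ?_ (hlJ (φ k))) (norm_nonneg _))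
          exact (pi_norm_le_iff_of_nonneg (norm_nonneg _)).2 fun l => norm_le_pi_norm _ (i, l)
        have h2 : lam (φ k) ^ (J + 1) ≤ lam (φ k) ^ j := pow_le_pow_right₀ (hl1 _) hj
        rw [hH, norm_mul, norm_pow, norm_inv, Complex.norm_real, Real.norm_eq_abs, abs_of_pos h0,
          inv_pow, inv_mul_le_iff₀ (pow_pos h0 _)]
        refine h1.trans ?_
        have h3 : ‖ℓ‖ * lam (φ k) ^ J = lam (φ k) ^ (J + 1) * (‖ℓ‖ * (lam (φ k))⁻¹) := by
          field_simp
          ring
        rw [h3]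
        exact mul_le_mul_of_nonneg_right h2 (by positivity)
      refine squeeze_zero_norm hb ?_
      simpa using (tendsto_inv_atTop_zero.comp (hlam.comp hφ.tendsto_atTop)).const_mul ‖ℓ‖
  refine ⟨p, fun G hG => ?_, fun i => ?_, ?_⟩
  · apply Polynomial.coe_injective ℂ
    have h1 : ((aeval p G : Polynomial ℂ) : PowerSeries ℂ) =
        aeval (fun i => (p i : PowerSeries ℂ)) G :=
      (DFunLike.congr_fun (comp_aeval p (Polynomial.coeToPowerSeries.algHom ℂ)) G).trans (by
        simp)
    show ((aeval p G : Polynomial ℂ) : PowerSeries ℂ) = ((0 : Polynomial ℂ) : PowerSeries ℂ)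
    rw [h1, Polynomial.coe_zero]
    ext N
    have h2 := tendsto_coeff_aeval H _ hconv G N
    have h3 : ∀ k, aeval (H k) G = 0 := fun k => by
      have := DFunLike.congr_fun (comp_aeval (F (w (φ k)))
        (PowerSeries.rescaleAlgHom ((lam (φ k) : ℂ)⁻¹))) G
      rw [AlgHom.comp_apply, (hwS (φ k)).1 G hG, map_zero] at this
      exact this.symm
    simp only [h3, map_zero] at h2 ⊢
    exact tendsto_nhds_unique h2 tendsto_const_nhds
  · have h1 := hp1 i 0
    have h2 := tendsto_pi_nhds.1 hlim (i, 0)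
    rw [← Polynomial.coeff_zero_eq_eval_zero]
    refine h1.trans (tendsto_nhds_unique h2 (tendsto_const_nhds.congr fun k => ?_))
    simp [z, (hwS (φ k)).2.1 i]
  · obtain ⟨c, hc, hyc⟩ := Set.mem_iUnion₂.1 hy.2
    refine ⟨c.1, lt_of_lt_of_le (Nat.pos_of_ne_zero fun h => hc (Fin.ext h))
      (Polynomial.le_natDegree_of_ne_zero (n := c.2) ?_)⟩
    rw [hp1]
    intro h0
    have : ‖y c‖ = 1 := hyc
    rw [show y c = 0 from h0] at this
    simp at this

theorem bubble : BubbleStmt := by
  intro B _ _ t h χ₀ V hV n T x hS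
  obtain ⟨E, hE, hE0⟩ := expansion_AC B t h χ₀
  have : Module.Finite ℂ (V.map E.toLinearMap) := Module.Finite.map V _
  refine core (V.map E.toLinearMap) n T x (Set.infinite_of_injOn_mapsTo
    (f := fun (u : Fin n → B) i => E (u i)) ?_ ?_ hS)
  · intro u _ v _ huv
    exact funext fun i => hE (congrFun huv i)
  · intro u hu
    refine ⟨fun i => ⟨u i, hu.1 i, rfl⟩, fun G hG => ?_, fun i => (hE0 _).trans (hu.2.2 i)⟩
    have := DFunLike.congr_fun (comp_aeval u E) G
    rw [AlgHom.comp_apply, hu.2.1 G hG, map_zero] at this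
    exact this.symm

end Pool.Agent.MP_c69980_ag.H86
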